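import Pool.Agent.Q130.LS.Fin

set_option autoImplicit false

/-! # The Paley graph conjecture for almost all primes, one set fixed and the other one arbitrary

Let `0 < δ`, `0 < ε`. There are `τ > 0` and `Q0` such that for all `Q ≥ Q0`, `Q ^ δ ≤ N ≤ Q`, all
sets `A` of integers in `[1, N]` with at least `N ^ (1 - ρ)` elements, `0 ≤ ρ ≤ 1`, all real weights
`w` on `A` bounded by `1` and all `β`: for all but at most `N ^ (1 - β) (Q ^ 2 N) ^ ρ` pairs of a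
prime `p ≤ Q` and a nonprincipal character `χ` modulo `p`, ALL sets `B` of integers in `[0, N]` with
at least `N ^ β Q ^ ε` elements satisfy
`∑_{b ∈ B} |∑_{a ∈ A} w(a) χ(a + b)| ≤ Q ^ (-τ) |A| |B|`.

For `β = 0`, `N = Q ^ δ` and `δ + (2 + δ) ρ < 1` this is the bound of the Paley graph conjecture for
almost all primes `p ≤ Q`, for every character modulo `p` and every subset `B` of `[0, N]` with at
least `Q ^ ε` elements. -/

namespace Pool.Agent.Results.MP_f6e9a2_nt.AlmostAllPrimesAllSets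

open Finset

theorem result :
    ∀ δ ε : ℝ, 0 < δ → 0 < ε →
      ∃ τ : ℝ, 0 < τ ∧ ∃ Q0 : ℕ, ∀ Q : ℕ, Q0 ≤ Q → ∀ N : ℕ, (Q : ℝ) ^ δ ≤ N → N ≤ Q →
        ∀ (A : Finset ℕ) (w : ℕ → ℝ) (ρ β : ℝ), A ⊆ Icc 1 N → (∀ a, |w a| ≤ 1) →
          0 ≤ ρ → ρ ≤ 1 → (N : ℝ) ^ (1 - ρ) ≤ A.card →
          ∑ p ∈ (Icc 1 Q).filter Nat.Prime,
            ({χ : DirichletCharacter ℂ p | χ ≠ 1 ∧ ∃ B : Finset ℕ, B ⊆ range (N + 1) ∧
              (N : ℝ) ^ β * (Q : ℝ) ^ ε ≤ B.card ∧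
              (Q : ℝ) ^ (-τ) * A.card * B.card <
                ∑ b ∈ B, ‖∑ a ∈ A, (w a : ℂ) * χ ((a + b : ℕ) : ZMod p)‖}.ncard : ℝ)
          ≤ (N : ℝ) ^ (1 - β) * ((Q : ℝ) ^ 2 * N) ^ ρ :=
  fun δ ε hδ hε => Pool.Agent.Q130.LS.almost_all δ ε hδ hε

end Pool.Agent.Results.MP_f6e9a2_nt.AlmostAllPrimesAllSets
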