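import Pool.Agent.Q93.PG.Thr

/-!
# The Paley graph conjecture and the number of bad sets: sharp thresholds

`S χ A B = ∑_{a ∈ A, b ∈ B} χ(a + b)`.
-/

namespace Pool.Agent.Results.MP_f6e9a2_nt.CountingThreshold

/-- The double sum. -/
noncomputable def S {p : ℕ} (χ : DirichletCharacter ℂ p) (A B : Finset (ZMod p)) : ℂ :=
  ∑ a ∈ A, ∑ b ∈ B, χ (a + b)

open scoped Classical in
/-- The sets `A` of `m` elements which are bad for the fixed set `B`: `|S(A,B)| ≥ η |A| |B|`. -/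
noncomputable def badSets {p : ℕ} [NeZero p] (χ : DirichletCharacter ℂ p) (B : Finset (ZMod p))
    (m : ℕ) (η : ℝ) : Finset (Finset (ZMod p)) :=
  (Finset.univ.powersetCard m).filter (fun A => η * (m * B.card) ≤ ‖S χ A B‖)

open scoped Classical in
/-- The bad pairs `(A, B)` of sets of `m` elements: `|S(A,B)| ≥ η m²`. -/
noncomputable def badPairs {p : ℕ} [NeZero p] (χ : DirichletCharacter ℂ p)
    (m : ℕ) (η : ℝ) : Finset (Finset (ZMod p) × Finset (ZMod p)) :=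
  ((Finset.univ.powersetCard m) ×ˢ (Finset.univ.powersetCard m)).filter
    (fun q => η * (m * m) ≤ ‖S χ q.1 q.2‖)

/-- The Paley graph conjecture, as in the problem. -/
def Q1 : Prop :=
  ∀ ε : ℝ, 0 < ε → ∃ p₀ : ℕ, ∃ δ : ℝ, 0 < δ ∧ ∀ p : ℕ, p.Prime → p₀ < p →
    ∀ A B : Finset (ZMod p), (p : ℝ) ^ ε < A.card → (p : ℝ) ^ ε < B.card →
    ∀ χ : DirichletCharacter ℂ p, χ ≠ 1 →
      ‖S χ A B‖ ≤ (p : ℝ) ^ (-δ) * A.card * B.card

/-- **Main theorem.** Let `p` be prime, `χ ≠ 1`, `η = p^(-δ)`.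

1. (Every `B`.) Let `ε > 0`, `p ≥ p₀(ε)`, `|B| > p^ε`, `1 ≤ m ≤ p`, `0 ≤ δ ≤ ε/6`. The proportion of
   the `m`-element sets `A` with `|S(A,B)| ≥ η |A||B|` is at most `p^(-(ε/8) η m)`.
2. The Paley graph conjecture holds iff the exponent `η = p^(-δ)` in (1) can be replaced by
   `p^(-κ)` for some `κ < δ`: for all `ε > 0` there are `0 < κ < δ < ε` such that for large `p`, all
   `χ ≠ 1`, `|B| > p^ε` and `p^ε < m ≤ p` the proportion is less than `p^(- p^(-κ) m)`.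
3. (Pairs.) Let `ε > 0`, `p ≥ p₀(ε)`, `p^ε < m ≤ p`, `0 ≤ δ ≤ ε/36`. The proportion of the pairs of
   `m`-element sets with `|S(A,B)| ≥ η m²` is at most `p^(-(ε/20) η^(1/2) m)`.
4. The conjecture holds iff the exponent `p^(-δ/2)` in (3) can be replaced by `p^(-κ)` for some
   `κ < δ/2`.
5. For every `p`, `χ ≠ 1`, `B`, `A`, with `m = |A|`, `k ≤ m`, `m + k ≤ p`: the number of the
   `m`-element sets `A'` with `|S(A',B)| ≥ (k/2m) |S(A,B)|` is at least `C(p,m) / (2 p^(2k))`; and if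
   also `|B| = m`, the number of pairs `(A',B')` of `m`-element sets with
   `|S(A',B')| ≥ (k/2m)² |S(A,B)|` is at least `C(p,m)² / (4 p^(4k))`. -/
theorem result :
    (∀ ε : ℝ, 0 < ε → ∃ p₀ : ℕ, ∀ p : ℕ, ∀ hp : p.Prime, p₀ < p →
      haveI := Fact.mk hp
      ∀ χ : DirichletCharacter ℂ p, χ ≠ 1 → ∀ B : Finset (ZMod p), (p : ℝ) ^ ε < B.card →
      ∀ m : ℕ, 1 ≤ m → m ≤ p → ∀ δ : ℝ, 0 ≤ δ → δ ≤ ε / 6 →
        ((badSets χ B m ((p : ℝ) ^ (-δ))).card : ℝ) ≤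
          (p : ℝ) ^ (-(ε / 8 * ((p : ℝ) ^ (-δ) * m))) * p.choose m) ∧
    (Q1 ↔ ∀ ε : ℝ, 0 < ε → ∃ κ δ : ℝ, 0 < κ ∧ κ < δ ∧ δ < ε ∧ ∃ p₀ : ℕ, ∀ p : ℕ,
      ∀ hp : p.Prime, p₀ < p → haveI := Fact.mk hp
      ∀ χ : DirichletCharacter ℂ p, χ ≠ 1 → ∀ B : Finset (ZMod p), (p : ℝ) ^ ε < B.card →
      ∀ m : ℕ, (p : ℝ) ^ ε < m → m ≤ p →
        ((badSets χ B m ((p : ℝ) ^ (-δ))).card : ℝ) <
          (p : ℝ) ^ (-((p : ℝ) ^ (-κ) * m)) * p.choose m) ∧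
    (∀ ε : ℝ, 0 < ε → ∃ p₀ : ℕ, ∀ p : ℕ, ∀ hp : p.Prime, p₀ < p →
      haveI := Fact.mk hp
      ∀ χ : DirichletCharacter ℂ p, χ ≠ 1 →
      ∀ m : ℕ, (p : ℝ) ^ ε < m → m ≤ p → ∀ δ : ℝ, 0 ≤ δ → δ ≤ ε / 36 →
        ((badPairs χ m ((p : ℝ) ^ (-δ))).card : ℝ) ≤
          (p : ℝ) ^ (-(ε / 20 * ((p : ℝ) ^ (-δ / 2) * m))) * (p.choose m : ℝ) ^ 2) ∧
    (Q1 ↔ ∀ ε : ℝ, 0 < ε → ∃ κ δ : ℝ, 0 < κ ∧ 2 * κ < δ ∧ δ < ε ∧ ∃ p₀ : ℕ, ∀ p : ℕ,
      ∀ hp : p.Prime, p₀ < p → haveI := Fact.mk hp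
      ∀ χ : DirichletCharacter ℂ p, χ ≠ 1 → ∀ m : ℕ, (p : ℝ) ^ ε < m → m ≤ p →
        ((badPairs χ m ((p : ℝ) ^ (-δ))).card : ℝ) <
          (p : ℝ) ^ (-((p : ℝ) ^ (-κ) * m)) * (p.choose m : ℝ) ^ 2) ∧
    (∀ p : ℕ, ∀ hp : p.Prime, haveI := Fact.mk hp
      ∀ χ : DirichletCharacter ℂ p, χ ≠ 1 → ∀ A B : Finset (ZMod p), ∀ m k : ℕ,
      A.card = m → 1 ≤ m → k ≤ m → m + k ≤ p →
        (1 ≤ B.card → (p.choose m : ℝ) ≤ 2 * (p : ℝ) ^ (2 * k) *
          ((badSets χ B m ((k : ℝ) / (2 * m) * ‖S χ A B‖ / (m * B.card))).card : ℝ)) ∧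
        (B.card = m → (p.choose m : ℝ) ^ 2 ≤ 4 * (p : ℝ) ^ (4 * k) *
          ((badPairs χ m (((k : ℝ) / (2 * m)) ^ 2 * ‖S χ A B‖ / (m * m))).card : ℝ))) := by
  refine ⟨Pool.Agent.Q93.PG.upper_linear, ?_, Pool.Agent.Q93.PG.upper_pairs, ?_, ?_⟩
  · exact ⟨Pool.Agent.Q93.PG.sets_of_Q1, Pool.Agent.Q93.PG.Q1_of_sets⟩
  · exact ⟨Pool.Agent.Q93.PG.pairs_of_Q1, Pool.Agent.Q93.PG.Q1_of_pairs⟩
  · intro p hp
    have hF : Fact p.Prime := ⟨hp⟩
    intro χ hχ A B m k hA hm hk hmk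
    have hm0 : (0 : ℝ) < m := by exact_mod_cast hm
    constructor
    · intro hB
      have hB0 : (0 : ℝ) < B.card := by exact_mod_cast hB
      have h := Pool.Agent.Q93.PG.many_linear (fun a : ZMod p => ∑ b ∈ B, χ (a + b))
        (by rw [Finset.sum_comm]; exact Finset.sum_eq_zero fun b _ =>
              Pool.Agent.Q93.PG.sum_add_left χ hχ b) A k (by omega)
        (by rw [hA, ZMod.card]; omega) ((k : ℝ) / (2 * m) * ‖S χ A B‖)
        (by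
          rw [hA]
          have : (k : ℝ) / (2 * m) * ‖S χ A B‖ * (2 * m) = k * ‖S χ A B‖ := by field_simp
          rw [this]
          exact le_rfl)
        (by omega)
      rw [hA, ZMod.card] at h
      have e : (k : ℝ) / (2 * m) * ‖S χ A B‖ / (m * B.card) * (m * B.card) =
          (k : ℝ) / (2 * m) * ‖S χ A B‖ := by field_simp
      have h' : p.choose m ≤ 2 * p ^ (2 * k) *
          (badSets χ B m ((k : ℝ) / (2 * m) * ‖S χ A B‖ / (m * B.card))).card := by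
        unfold badSets
        rw [e]
        exact h
      exact_mod_cast h'
    · intro hB
      have h := Pool.Agent.Q93.PG.many_bilinear (fun a b : ZMod p => χ (a + b))
        (fun y => Pool.Agent.Q93.PG.sum_add_left χ hχ y)
        (fun x => Pool.Agent.Q93.PG.sum_add_right χ hχ x) A B k k (by omega) (by omega)
        (by rw [hA, ZMod.card]; omega) (by rw [hB, ZMod.card]; omega)
        (((k : ℝ) / (2 * m)) ^ 2 * ‖S χ A B‖)
        (by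
          rw [hA, hB]
          have : ((k : ℝ) / (2 * m)) ^ 2 * ‖S χ A B‖ * (4 * (m * m)) = k * k * ‖S χ A B‖ := by
            field_simp
            ring
          rw [this]
          exact le_rfl)
        (by omega) (by omega)
      rw [hA, hB, ZMod.card] at h
      have e : ((k : ℝ) / (2 * m)) ^ 2 * ‖S χ A B‖ / (m * m) * (m * m) =
          ((k : ℝ) / (2 * m)) ^ 2 * ‖S χ A B‖ := by field_simp
      have h' : p.choose m * p.choose m ≤ 4 * p ^ (2 * (k + k)) *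
          (badPairs χ m (((k : ℝ) / (2 * m)) ^ 2 * ‖S χ A B‖ / (m * m))).card := by
        unfold badPairs
        rw [e]
        exact h
      have h'' : (p.choose m : ℝ) * p.choose m ≤ 4 * (p : ℝ) ^ (2 * (k + k)) *
          ((badPairs χ m (((k : ℝ) / (2 * m)) ^ 2 * ‖S χ A B‖ / (m * m))).card : ℝ) := by
        exact_mod_cast h'
      calc (p.choose m : ℝ) ^ 2 = (p.choose m : ℝ) * p.choose m := by ring
        _ ≤ _ := h''
        _ = _ := by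
            congr 3
            omega

end Pool.Agent.Results.MP_f6e9a2_nt.CountingThreshold
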