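import Pool.Agent.Q132.GP.Core
import Pool.Agent.Q132.GP.Poly
import Pool.Agent.Q132.GP.Numbers

/-!
# The Paley graph conjecture: subsets in general position of given sets suffice

`S χ A B = ∑_{a ∈ A, b ∈ B} χ(a + b)`.  The conjecture is equivalent to its restriction to pairs of
disjoint sets of the same size `p^ε < |A| = |B| ≤ 2 p^ε` which are contained in two sets `I`, `J` of
density `p^(-κ ε)` (of our choice, for example the interval `[0, p^(1-κ ε))`) and which are in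
general position with respect to at most `p^(κ ε)` thin relations of our choice, for example have no
algebraic relation of complexity `h`.
-/

namespace Pool.Agent.Results.MP_f6e9a2_nt.GenericSubsetsSuffice

open Finset

/-- The double sum. -/
noncomputable def S {p : ℕ} (χ : DirichletCharacter ℂ p) (A B : Finset (ZMod p)) : ℂ :=
  ∑ a ∈ A, ∑ b ∈ B, χ (a + b)

/-- The Paley graph conjecture, as in the problem. -/
def Q1 : Prop :=
  ∀ ε : ℝ, 0 < ε → ∃ p₀ : ℕ, ∃ δ : ℝ, 0 < δ ∧ ∀ p : ℕ, p.Prime → p₀ < p →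
    ∀ A B : Finset (ZMod p), (p : ℝ) ^ ε < A.card → (p : ℝ) ^ ε < B.card →
    ∀ χ : DirichletCharacter ℂ p, χ ≠ 1 →
      ‖S χ A B‖ ≤ (p : ℝ) ^ (-δ) * A.card * B.card

/-- A relation with `h` places is `D`-thin if in every product of `h` finite sets with at least `m`
elements each at most the proportion `D / m` of the points belongs to it.  Examples: the zero set of
a nonzero polynomial of degree at most `D` (Schwartz and Zippel), the graph of any function of
`h - 1` variables (`D = 1`). -/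
def Thin {p h : ℕ} (D : ℕ) (R : Set (Fin h → ZMod p)) : Prop :=
  ∀ (X : Fin h → Finset (ZMod p)) (m : ℕ), (∀ i, m ≤ (X i).card) →
    m * ({x : Fin h → ZMod p | (∀ i, x i ∈ X i) ∧ x ∈ R}).ncard ≤ D * ∏ i, (X i).card

/-- No tuple of distinct elements of `A` satisfies the relation. -/
def Avoids {p h : ℕ} (R : Set (Fin h → ZMod p)) (A : Finset (ZMod p)) : Prop :=
  ∀ x : Fin h → ZMod p, Function.Injective x → (∀ i, x i ∈ A) → x ∉ R

/-- The conjecture for subsets in general position of given sets: for every `ε > 0` and every large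
prime `p` there are sets `I`, `J` with at least `p^(1 - κ ε)` elements and `M` relations, all
`D`-thin, `M D ≤ p^(κ ε)`, such that the bound of the conjecture holds for all disjoint `A ⊆ I`,
`B ⊆ J` with `p^ε < |A| = |B| ≤ 2 p^ε` for which `A ∪ B` avoids the `M` relations. -/
def Reduced (h : ℕ) (κ : ℝ) : Prop :=
  ∀ ε : ℝ, 0 < ε → ∃ p₀ : ℕ, ∃ δ : ℝ, 0 < δ ∧ ∀ p : ℕ, p.Prime → p₀ < p →
    ∃ (I J : Finset (ZMod p)) (M D : ℕ) (R : Fin M → Set (Fin h → ZMod p)),
      (p : ℝ) ^ (1 - κ * ε) ≤ I.card ∧ (p : ℝ) ^ (1 - κ * ε) ≤ J.card ∧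
      (M : ℝ) * D ≤ (p : ℝ) ^ (κ * ε) ∧ (∀ k, Thin D (R k)) ∧
      ∀ A B : Finset (ZMod p), A ⊆ I → B ⊆ J → Disjoint A B → A.card = B.card →
        (p : ℝ) ^ ε < A.card → (A.card : ℝ) ≤ 2 * (p : ℝ) ^ ε → (∀ k, Avoids (R k) (A ∪ B)) →
        ∀ χ : DirichletCharacter ℂ p, χ ≠ 1 →
          ‖S χ A B‖ ≤ (p : ℝ) ^ (-δ) * A.card * B.card

/-- No algebraic relation of complexity `h`: no polynomial in `h` variables, of degree at most `h`
in each of them, with integer coefficients in `[-h, h]` not all zero, vanishes modulo `p` at `h`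
distinct elements of `A`. -/
def NoRelation {p : ℕ} (h : ℕ) (A : Finset (ZMod p)) : Prop :=
  ∀ c : (Fin h → Fin (h + 1)) → ℤ, c ≠ 0 → (∀ e, |c e| ≤ h) →
    ∀ x : Fin h → ZMod p, Function.Injective x → (∀ i, x i ∈ A) →
      ∑ e, (c e : ZMod p) * ∏ i, x i ^ (e i : ℕ) ≠ 0

/-- The conjecture for sets of integers in `[0, p^(1 - h ε))` without algebraic relations of
complexity `h`. -/
def Explicit (h : ℕ) : Prop :=
  ∀ ε : ℝ, 0 < ε → ∃ p₀ : ℕ, ∃ δ : ℝ, 0 < δ ∧ ∀ p : ℕ, p.Prime → p₀ < p →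
    ∀ A B : Finset (ZMod p), (∀ a ∈ A ∪ B, (a.val : ℝ) < (p : ℝ) ^ (1 - h * ε)) →
      Disjoint A B → A.card = B.card → (p : ℝ) ^ ε < A.card → (A.card : ℝ) ≤ 2 * (p : ℝ) ^ ε →
      NoRelation h (A ∪ B) → ∀ χ : DirichletCharacter ℂ p, χ ≠ 1 →
        ‖S χ A B‖ ≤ (p : ℝ) ^ (-δ) * A.card * B.card

lemma reduced_imp (h : ℕ) (κ : ℝ) (hκ : 0 ≤ κ) (hR : Reduced h κ) : Q1 := by
  intro ε0 hε0
  set ε := min ε0 1 with hεd
  have hε : 0 < ε := lt_min hε0 one_pos
  have hε1 : ε ≤ 1 := min_le_right _ _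
  obtain ⟨ε', hε', hnum⟩ := Pool.Agent.Q132.GP.numbers ε κ h hε hε1 hκ
  obtain ⟨p₀, δ', hδ', hred⟩ := hR ε' hε'
  obtain ⟨δ, hδ, P, hP⟩ := hnum δ' hδ'
  refine ⟨max p₀ P, δ, hδ, fun p hp hpp A B hA hB χ hχ => ?_⟩
  haveI := Fact.mk hp
  by_contra hcon
  push Not at hcon
  have hX1 : (1 : ℝ) ≤ p := by exact_mod_cast hp.one_lt.le
  have hA' : (p : ℝ) ^ ε < A.card :=
    lt_of_le_of_lt (Real.rpow_le_rpow_of_exponent_le hX1 (min_le_left _ _)) hA
  have hB' : (p : ℝ) ^ ε < B.card :=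
    lt_of_le_of_lt (Real.rpow_le_rpow_of_exponent_le hX1 (min_le_left _ _)) hB
  obtain ⟨I, J, M, D, R, hI, hJ, hMD, hThin, hbd⟩ := hred p hp (lt_of_le_of_lt (le_max_left _ _) hpp)
  obtain ⟨h1, h2, h3, n, hn, h4, h5, h6⟩ := hP p (le_trans (le_max_right _ _) hpp.le) hp.one_lt.le
    A.card B.card I.card J.card M D hA' hB' hI hJ hMD
  have hη : (0 : ℝ) < (p : ℝ) ^ (-δ) := Real.rpow_pos_of_pos (by linarith) _
  have hApos : 0 < A.card := by
    have : (0 : ℝ) < A.card := lt_trans (Real.rpow_pos_of_pos (by linarith) _) hA'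
    exact_mod_cast this
  have hBpos : 0 < B.card := by
    have : (0 : ℝ) < B.card := lt_trans (Real.rpow_pos_of_pos (by linarith) _) hB'
    exact_mod_cast this
  obtain ⟨A₁, B₁, hAI, hBJ, hdis, cA, cB, hgen, hbig⟩ := Pool.Agent.Q132.GP.core_two χ A B I J
    ((p : ℝ) ^ (-δ)) hη h1 (by
      have : (p : ℝ) ^ (-δ) * ((A.card : ℝ) * B.card) ≤ ‖S χ A B‖ := by linarith
      exact this) hApos hBpos n (Pool.Agent.Q132.GP.msz p ε') hn (by omega) h4 h5 R
    (fun k => hThin k) (by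
      refine lt_of_lt_of_le h6 ?_
      have : (0 : ℝ) ≤ n := Nat.cast_nonneg _
      nlinarith)
  have h7 := hbd A₁ B₁ hAI hBJ hdis (by rw [cA, cB])
    (by rw [cA]; exact Pool.Agent.Q132.GP.msz_gt p ε')
    (by rw [cA]; exact Pool.Agent.Q132.GP.msz_le p hp.one_lt.le ε' hε'.le)
    (fun k x hx hxl => hgen k x hx hxl) χ hχ
  rw [cA, cB] at h7
  have hm0 : (0 : ℝ) < (Pool.Agent.Q132.GP.msz p ε' : ℝ) := by
    have : 0 < Pool.Agent.Q132.GP.msz p ε' := by omega
    exact_mod_cast this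
  set m : ℝ := (Pool.Agent.Q132.GP.msz p ε' : ℝ) with hm
  have h8 : (p : ℝ) ^ (-δ) / 8 * (m * m) ≤ (p : ℝ) ^ (-δ') * m * m := hbig.trans h7
  have h9 : 0 < m * m := mul_pos hm0 hm0
  have h10 : (p : ℝ) ^ (-δ') * (m * m) < (p : ℝ) ^ (-δ) / 16 * (m * m) :=
    mul_lt_mul_of_pos_right h3 h9
  have h11 : 0 < (p : ℝ) ^ (-δ) * (m * m) := mul_pos hη h9
  linarith

lemma card_interval (p : ℕ) (hp : p.Prime) (X : ℝ) (hX : X ≤ p) :
    haveI := Fact.mk hp
    X ≤ ((univ : Finset (ZMod p)).filter (fun a => (a.val : ℝ) < X)).card := by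
  haveI := Fact.mk hp
  have h1 : (Finset.range ⌈X⌉₊).card ≤
      ((univ : Finset (ZMod p)).filter (fun a => (a.val : ℝ) < X)).card := by
    refine card_le_card_of_injOn (fun k : ℕ => (k : ZMod p)) ?_ ?_
    · intro k hk
      rw [mem_coe, mem_range] at hk
      rw [mem_coe, mem_filter]
      refine ⟨mem_univ _, ?_⟩
      have h2 : (k : ℝ) < X := Nat.lt_ceil.1 hk
      have h3 : k < p := by
        have : (k : ℝ) < p := lt_of_lt_of_le h2 hX
        exact_mod_cast this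
      simp only
      rw [ZMod.val_natCast, Nat.mod_eq_of_lt h3]
      exact h2
    · intro k hk l hl hkl
      rw [mem_coe, mem_range] at hk hl
      have h3 : ∀ k : ℕ, k < ⌈X⌉₊ → k < p := by
        intro k hk
        have : (k : ℝ) < p := lt_of_lt_of_le (Nat.lt_ceil.1 hk) hX
        exact_mod_cast this
      have h4 := congrArg ZMod.val hkl
      simp only at h4
      rwa [ZMod.val_natCast, ZMod.val_natCast, Nat.mod_eq_of_lt (h3 k hk),
        Nat.mod_eq_of_lt (h3 l hl)] at h4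
  rw [card_range] at h1
  calc X ≤ ⌈X⌉₊ := Nat.le_ceil X
    _ ≤ _ := by exact_mod_cast h1

lemma explicit_imp (h : ℕ) (hE : Explicit h) : Reduced h h := by
  classical
  intro ε hε
  obtain ⟨p₀, δ, hδ, hbd⟩ := hE ε hε
  set C : Finset ((Fin h → Fin (h + 1)) → ℤ) :=
    Fintype.piFinset (fun _ => Finset.Icc (-(h : ℤ)) h) with hC
  set M := C.card with hM
  obtain ⟨P, hP⟩ : ∃ P : ℕ, ∀ p : ℕ, P ≤ p → 1 ≤ p →
      (M : ℝ) * ((h * h : ℕ) : ℝ) ≤ (p : ℝ) ^ ((h : ℝ) * ε) := by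
    rcases Nat.eq_zero_or_pos h with h0 | h0
    · refine ⟨0, fun p _ _ => ?_⟩
      rw [h0]
      simp
    · obtain ⟨P, hP⟩ := Pool.Agent.Q132.GP.ev ((M : ℝ) * ((h * h : ℕ) : ℝ)) ((h : ℝ) * ε)
        (by positivity)
      exact ⟨P, fun p hp _ => (hP p hp).le⟩
  refine ⟨max p₀ (max P h), δ, hδ, fun p hp hpp => ?_⟩
  haveI := Fact.mk hp
  have hp1 : p₀ < p := lt_of_le_of_lt (le_max_left _ _) hpp
  have hp2 : P ≤ p := (lt_of_le_of_lt (le_trans (le_max_left _ _) (le_max_right _ _)) hpp).le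
  have hp3 : h < p := lt_of_le_of_lt (le_trans (le_max_right _ _) (le_max_right _ _)) hpp
  have hX1 : (1 : ℝ) ≤ p := by exact_mod_cast hp.one_lt.le
  set X : ℝ := (p : ℝ) ^ (1 - (h : ℝ) * ε) with hXd
  have hXp : X ≤ p := by
    calc X ≤ (p : ℝ) ^ (1 : ℝ) := Real.rpow_le_rpow_of_exponent_le hX1 (by
          have : (0 : ℝ) ≤ h * ε := by positivity
          linarith)
      _ = p := Real.rpow_one _
  set I : Finset (ZMod p) := univ.filter (fun a => (a.val : ℝ) < X) with hI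
  let eC := C.equivFin
  refine ⟨I, I, M, h * h, fun k => {x | ((eC.symm k : (Fin h → Fin (h + 1)) → ℤ)) ≠ 0 ∧
    Pool.Agent.Q132.GP.pval (eC.symm k : (Fin h → Fin (h + 1)) → ℤ) x = 0},
    card_interval p hp X hXp, card_interval p hp X hXp, hP p hp2 hp.one_lt.le, ?_, ?_⟩
  · intro k
    set c : (Fin h → Fin (h + 1)) → ℤ := (eC.symm k : (Fin h → Fin (h + 1)) → ℤ) with hc
    have hcm : c ∈ C := (eC.symm k).2
    have hb : ∀ e, |c e| ≤ h := by
      intro e
      rw [hC, Fintype.mem_piFinset] at hcm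
      have := hcm e
      rw [mem_Icc] at this
      exact abs_le.2 this
    by_cases hc0 : c = 0
    · intro Y m hm
      have : ({x : Fin h → ZMod p | (∀ i, x i ∈ Y i) ∧
          x ∈ {x | c ≠ 0 ∧ Pool.Agent.Q132.GP.pval c x = 0}}) = ∅ := by
        ext x
        simp [hc0]
      rw [this, Set.ncard_empty, mul_zero]
      exact Nat.zero_le _
    · have := Pool.Agent.Q132.GP.thin_poly hp3 c hc0 hb
      have e : ({x | c ≠ 0 ∧ Pool.Agent.Q132.GP.pval c x = 0} : Set (Fin h → ZMod p))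
          = {x | Pool.Agent.Q132.GP.pval c x = 0} := by
        ext x
        simp [hc0]
      intro Y m hm
      have h1 := this Y m hm
      rw [← e] at h1
      exact h1
  · intro A B hAI hBI hdis hcard hA1 hA2 hav χ hχ
    refine hbd p hp hp1 A B ?_ hdis hcard hA1 hA2 ?_ χ hχ
    · intro a ha
      rcases mem_union.1 ha with h1 | h1
      · exact (mem_filter.1 (hAI h1)).2
      · exact (mem_filter.1 (hBI h1)).2
    · intro c hc hb x hx hxl h0
      have hcm : c ∈ C := by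
        rw [hC, Fintype.mem_piFinset]
        intro e
        rw [mem_Icc]
        exact abs_le.1 (hb e)
      refine hav (eC ⟨c, hcm⟩) x hx hxl ?_
      rw [Set.mem_setOf_eq, Equiv.symm_apply_apply]
      exact ⟨hc, h0⟩

/-- **Main theorem.**  For all `h` and `κ ≥ 0` the Paley graph conjecture is equivalent to its
restriction to subsets in general position of two given sets of density `p^(-κ ε)`; in particular,
for every `h`, to its restriction to sets of integers in `[0, p^(1 - h ε))` without algebraic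
relations of complexity `h`. -/
theorem result :
    (∀ (h : ℕ) (κ : ℝ), 0 ≤ κ → (Q1 ↔ Reduced h κ)) ∧ ∀ h : ℕ, (Q1 ↔ Explicit h) := by
  have hQE : ∀ h : ℕ, Q1 → Explicit h := by
    intro h hQ ε hε
    obtain ⟨p₀, δ, hδ, hb⟩ := hQ ε hε
    exact ⟨p₀, δ, hδ, fun p hp hpp A B _ _ hc hA _ _ χ hχ => hb p hp hpp A B hA (hc ▸ hA) χ hχ⟩
  refine ⟨fun h κ hκ => ⟨?_, reduced_imp h κ hκ⟩,
    fun h => ⟨hQE h, fun hE => reduced_imp h h (Nat.cast_nonneg _) (explicit_imp h hE)⟩⟩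
  intro hQ ε hε
  obtain ⟨p₀, δ, hδ, hb⟩ := hQ ε hε
  refine ⟨p₀, δ, hδ, fun p hp hpp => ?_⟩
  haveI := Fact.mk hp
  have hX1 : (1 : ℝ) ≤ p := by exact_mod_cast hp.one_lt.le
  have hfull : (p : ℝ) ^ (1 - κ * ε) ≤ ((univ : Finset (ZMod p)).card : ℝ) := by
    rw [card_univ, ZMod.card]
    calc (p : ℝ) ^ (1 - κ * ε) ≤ (p : ℝ) ^ (1 : ℝ) := Real.rpow_le_rpow_of_exponent_le hX1 (by
          have : (0 : ℝ) ≤ κ * ε := by positivity
          linarith)
      _ = p := Real.rpow_one _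
  refine ⟨univ, univ, 0, 0, fun k => ∅, hfull, hfull, ?_, fun k => k.elim0, ?_⟩
  · simp only [Nat.cast_zero, mul_zero]
    positivity
  · intro A B _ _ _ hc hA _ _ χ hχ
    exact hb p hp hpp A B hA (hc ▸ hA) χ hχ

end Pool.Agent.Results.MP_f6e9a2_nt.GenericSubsetsSuffice
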