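import Mathlib
import Pool.Agent.Q263.PG.Main

/-!
# MP_f6e9a2_nt (Paley graph conjecture): restricted digits against arbitrary sets

Double character sums over `A × B`, where `A` is a set of residues (or of exponents) with
restricted digits and `B` is an arbitrary set of residues, beyond the barrier `|A||B| = p`.
-/

set_option autoImplicit false

open Finset

open scoped Pointwise

namespace Pool.Agent.Results.MP_f6e9a2_nt.RestrictedDigitsAnySet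

open Pool.Agent.Q263.PG

/-- the integers `n < b ^ k` whose `i`-th digit in the base `b` is in `D i`, for all `i < k` -/
def digitSet (b k : ℕ) (D : ℕ → Finset ℕ) : Finset ℕ :=
  (Finset.range (b ^ k)).filter (fun n => ∀ i < k, n / b ^ i % b ∈ D i)

lemma digitSet_eq {b k : ℕ} {D : ℕ → Finset ℕ} (h : Prp b k D) : digitSet b k D = SD b k D := by
  ext n
  rw [mem_SD b k D h, digitSet, Finset.mem_filter, Finset.mem_range]

/-- the character sum over `A × B` for `A` = the residues of `S` -/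
noncomputable def sumAdd (p : ℕ) (χ : DirichletCharacter ℂ p) (S : Finset ℕ)
    (B : Finset (ZMod p)) : ℝ := ∑ x ∈ B, ‖∑ n ∈ S, χ ((n : ZMod p) + x)‖

/-- the character sum over `A × B` for `A` = the powers `θ ^ n`, `n ∈ S` -/
noncomputable def sumMul (p : ℕ) (χ : DirichletCharacter ℂ p) (θ : (ZMod p)ˣ) (S : Finset ℕ)
    (B : Finset (ZMod p)) : ℝ := ∑ x ∈ B, ‖∑ n ∈ S, χ (((θ ^ n : (ZMod p)ˣ) : ZMod p) + x)‖

lemma addEnergy_le (p : ℕ) (B : Finset (ZMod p)) : (B.addEnergy B : ℝ) ≤ (B.card : ℝ) ^ 3 := by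
  classical
  have h : B.addEnergy B ≤ B.card ^ 3 := by
    unfold Finset.addEnergy
    have h1 : (((B ×ˢ B) ×ˢ B ×ˢ B).filter fun x : (ZMod p × ZMod p) × ZMod p × ZMod p =>
        x.1.1 + x.2.1 = x.1.2 + x.2.2).card ≤ (B ×ˢ B ×ˢ B).card := by
      apply Finset.card_le_card_of_injOn (fun s : (ZMod p × ZMod p) × (ZMod p × ZMod p) =>
        (s.1.1, s.1.2, s.2.1))
      · intro s hs
        have h6 := Finset.mem_filter.1 (Finset.mem_coe.1 hs)
        rw [Finset.mem_product, Finset.mem_product, Finset.mem_product] at h6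
        rw [Finset.mem_coe, Finset.mem_product, Finset.mem_product]
        exact ⟨h6.1.1.1, h6.1.1.2, h6.1.2.1⟩
      · rintro ⟨⟨x1, x2⟩, ⟨x3, x4⟩⟩ hs ⟨⟨z1, z2⟩, ⟨z3, z4⟩⟩ hs' heq
        have h6 := (Finset.mem_filter.1 (Finset.mem_coe.1 hs)).2
        have h7 := (Finset.mem_filter.1 (Finset.mem_coe.1 hs')).2
        simp only [Prod.mk.injEq] at heq h6 h7 ⊢
        obtain ⟨rfl, rfl, rfl⟩ := heq
        refine ⟨⟨rfl, rfl⟩, rfl, ?_⟩
        exact add_left_cancel (h6.symm.trans h7)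
    refine h1.trans (le_of_eq ?_)
    rw [Finset.card_product, Finset.card_product]
    ring
  exact_mod_cast h

lemma mulEnergy_le (p : ℕ) (_ : Fact p.Prime) (B : Finset (ZMod p)) (h0 : (0 : ZMod p) ∉ B) :
    (B.mulEnergy B : ℝ) ≤ (B.card : ℝ) ^ 3 := by
  classical
  have h : B.mulEnergy B ≤ B.card ^ 3 := by
    unfold Finset.mulEnergy
    have h1 : (((B ×ˢ B) ×ˢ B ×ˢ B).filter fun x : (ZMod p × ZMod p) × ZMod p × ZMod p =>
        x.1.1 * x.2.1 = x.1.2 * x.2.2).card ≤ (B ×ˢ B ×ˢ B).card := by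
      apply Finset.card_le_card_of_injOn (fun s : (ZMod p × ZMod p) × (ZMod p × ZMod p) =>
        (s.1.1, s.1.2, s.2.1))
      · intro s hs
        have h6 := Finset.mem_filter.1 (Finset.mem_coe.1 hs)
        rw [Finset.mem_product, Finset.mem_product, Finset.mem_product] at h6
        rw [Finset.mem_coe, Finset.mem_product, Finset.mem_product]
        exact ⟨h6.1.1.1, h6.1.1.2, h6.1.2.1⟩
      · rintro ⟨⟨x1, x2⟩, ⟨x3, x4⟩⟩ hs ⟨⟨z1, z2⟩, ⟨z3, z4⟩⟩ hs' heq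
        have h5 := Finset.mem_filter.1 (Finset.mem_coe.1 hs)
        have h6 := h5.2
        rw [Finset.mem_product, Finset.mem_product] at h5
        have h7 := (Finset.mem_filter.1 (Finset.mem_coe.1 hs')).2
        simp only [Prod.mk.injEq] at heq h6 h7 ⊢
        obtain ⟨rfl, rfl, rfl⟩ := heq
        refine ⟨⟨rfl, rfl⟩, rfl, ?_⟩
        have hx2 : x2 ≠ 0 := fun h => h0 (h ▸ h5.1.1.2)
        exact mul_left_cancel₀ hx2 (h6.symm.trans h7)
    refine h1.trans (le_of_eq ?_)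
    rw [Finset.card_product, Finset.card_product]
    ring
  exact_mod_cast h

/-- the energy is at least `|B|⁴ / p` -/
lemma le_addEnergy (p : ℕ) (_ : Fact p.Prime) (B : Finset (ZMod p)) :
    (B.card : ℝ) ^ 4 ≤ p * (B.addEnergy B : ℝ) := by
  classical
  have h1 := Finset.le_card_add_mul_addEnergy B B
  have h2 : (B + B).card ≤ p := by
    have := Finset.card_le_univ (B + B)
    rwa [ZMod.card] at this
  have h3 : B.card ^ 4 ≤ p * B.addEnergy B := by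
    calc B.card ^ 4 = B.card ^ 2 * B.card ^ 2 := by ring
      _ ≤ _ := h1
      _ ≤ _ := Nat.mul_le_mul_right _ h2
  exact_mod_cast h3

lemma le_mulEnergy (p : ℕ) (_ : Fact p.Prime) (B : Finset (ZMod p)) :
    (B.card : ℝ) ^ 4 ≤ p * (B.mulEnergy B : ℝ) := by
  classical
  have h1 := Finset.le_card_mul_mul_mulEnergy B B
  have h2 : (B * B).card ≤ p := by
    have := Finset.card_le_univ (B * B)
    rwa [ZMod.card] at this
  have h3 : B.card ^ 4 ≤ p * B.mulEnergy B := by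
    calc B.card ^ 4 = B.card ^ 2 * B.card ^ 2 := by ring
      _ ≤ _ := h1
      _ ≤ _ := Nat.mul_le_mul_right _ h2
  exact_mod_cast h3

lemma sumAdd_empty (p : ℕ) (χ : DirichletCharacter ℂ p) (S : Finset ℕ) :
    sumAdd p χ S ∅ = 0 := by simp [sumAdd]

lemma sumMul_empty (p : ℕ) (χ : DirichletCharacter ℂ p) (θ : (ZMod p)ˣ) (S : Finset ℕ) :
    sumMul p χ θ S ∅ = 0 := by simp [sumMul]

/-- the condition for an arbitrary set implies the one with the energy -/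
lemma cond_of {X Z N E : ℝ} (hX : 0 ≤ X) (hN : 0 ≤ N) (hE : E ≤ N ^ 3)
    (h : X ≤ Z * N ∨ X * E ≤ Z * N ^ 4) : X * E ≤ Z * N ^ 4 := by
  rcases h with h | h
  · calc X * E ≤ X * N ^ 3 := mul_le_mul_of_nonneg_left hE hX
      _ ≤ (Z * N) * N ^ 3 := mul_le_mul_of_nonneg_right h (pow_nonneg hN 3)
      _ = _ := by ring
  · exact h

/-- general digits -/
theorem part1 (b : ℕ) (hb : 2 ≤ b) (ε : ℝ) (hε : 0 < ε) : ∃ c δ : ℝ, 0 < c ∧ 0 < δ ∧ ∃ P : ℕ,
    ∀ p : ℕ, ∀ _ : Fact p.Prime, P ≤ p → ∀ χ : DirichletCharacter ℂ p, χ ≠ 1 →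
      ∀ (k : ℕ) (D : ℕ → Finset ℕ), Prp b k D → (p : ℝ) ^ ε ≤ ((SD b k D).card : ℝ) →
        (b ^ k ≤ p → ∀ B : Finset (ZMod p),
          (p : ℝ) ^ (1 - c) * (B.addEnergy B : ℝ) ≤ ((SD b k D).card : ℝ) * (B.card : ℝ) ^ 4 →
          sumAdd p χ (SD b k D) B ≤ (p : ℝ) ^ (-δ) * (((SD b k D).card : ℝ) * B.card)) ∧
        (∀ θ : (ZMod p)ˣ, b ^ k ≤ orderOf θ → ∀ B : Finset (ZMod p), (0 : ZMod p) ∉ B →
          (p : ℝ) ^ (1 - c) * (B.mulEnergy B : ℝ) ≤ ((SD b k D).card : ℝ) * (B.card : ℝ) ^ 4 →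
          sumMul p χ θ (SD b k D) B ≤ (p : ℝ) ^ (-δ) * (((SD b k D).card : ℝ) * B.card)) := by
  obtain ⟨ε1, η, c, hε1, hη, hc, P1, hP1⟩ := cut b hb ε hε
  obtain ⟨δ1, hδ1, P2, hP2⟩ := add_split b hb ε1 η hε1 hη
  obtain ⟨δ2, hδ2, P3, hP3⟩ := mul_split b hb ε1 η hε1 hη
  refine ⟨c, min δ1 δ2, hc, lt_min hδ1 hδ2, max (max P1 P2) (max P3 1), ?_⟩
  intro p _ hp χ hχ k D hD hA
  have hp1 : P1 ≤ p := ((le_max_left _ _).trans (le_max_left _ _)).trans hp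
  have hp2 : P2 ≤ p := ((le_max_right _ _).trans (le_max_left _ _)).trans hp
  have hp3 : P3 ≤ p := ((le_max_left _ _).trans (le_max_right _ _)).trans hp
  have hp4 : (1 : ℝ) ≤ p := by
    exact_mod_cast ((le_max_right _ _).trans (le_max_right _ _)).trans hp
  obtain ⟨j, m, hjm, hm, hH, hcut⟩ := hP1 p hp1 k D hD hA
  subst hjm
  constructor
  · intro hbk B hB
    have h1 := hcut (B.card : ℝ) (B.addEnergy B : ℝ) (Nat.cast_nonneg _) (Nat.cast_nonneg _) hB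
    refine (hP2 p inferInstance hp2 χ hχ j m D hD hm hbk hH B h1).trans ?_
    apply mul_le_mul_of_nonneg_right _ (by positivity)
    exact Real.rpow_le_rpow_of_exponent_le hp4 (neg_le_neg (min_le_left _ _))
  · intro θ hbk B h0 hB
    have h1 := hcut (B.card : ℝ) (B.mulEnergy B : ℝ) (Nat.cast_nonneg _) (Nat.cast_nonneg _) hB
    refine (hP3 p inferInstance hp3 χ hχ θ j m D hD hm hbk hH B h0 h1).trans ?_
    apply mul_le_mul_of_nonneg_right _ (by positivity)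
    exact Real.rpow_le_rpow_of_exponent_le hp4 (neg_le_neg (min_le_right _ _))

/-- two digits -/
theorem part2 (b : ℕ) (hb : 3 ≤ b) (ε : ℝ) (hε : 0 < ε) : ∃ δ : ℝ, 0 < δ ∧ ∃ P : ℕ,
    ∀ p : ℕ, ∀ _ : Fact p.Prime, P ≤ p → ∀ χ : DirichletCharacter ℂ p, χ ≠ 1 →
      ∀ (k : ℕ) (D : ℕ → Finset ℕ), Two b k D →
        (b ^ k ≤ p → ∀ B : Finset (ZMod p),
          (p : ℝ) ^ (1 + ε) * (B.addEnergy B : ℝ) ≤ (8 / 3) ^ k * (B.card : ℝ) ^ 4 →
          sumAdd p χ (SD b k D) B ≤ (p : ℝ) ^ (-δ) * (((SD b k D).card : ℝ) * B.card)) ∧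
        (∀ θ : (ZMod p)ˣ, b ^ k ≤ orderOf θ → ∀ B : Finset (ZMod p), (0 : ZMod p) ∉ B →
          (p : ℝ) ^ (1 + ε) * (B.mulEnergy B : ℝ) ≤ (8 / 3) ^ k * (B.card : ℝ) ^ 4 →
          sumMul p χ θ (SD b k D) B ≤ (p : ℝ) ^ (-δ) * (((SD b k D).card : ℝ) * B.card)) := by
  obtain ⟨ε1, η, hε1, hη, P1, hP1⟩ := cut2 b hb ε hε
  obtain ⟨δ1, hδ1, P2, hP2⟩ := add_split b (by omega) ε1 η hε1 hη
  obtain ⟨δ2, hδ2, P3, hP3⟩ := mul_split b (by omega) ε1 η hε1 hη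
  refine ⟨min δ1 δ2, lt_min hδ1 hδ2, max (max P1 P2) (max P3 1), ?_⟩
  intro p _ hp χ hχ k D hD
  have hp1 : P1 ≤ p := ((le_max_left _ _).trans (le_max_left _ _)).trans hp
  have hp2 : P2 ≤ p := ((le_max_right _ _).trans (le_max_left _ _)).trans hp
  have hp3 : P3 ≤ p := ((le_max_left _ _).trans (le_max_right _ _)).trans hp
  have hp4 : (1 : ℝ) ≤ p := by
    exact_mod_cast ((le_max_right _ _).trans (le_max_right _ _)).trans hp
  have hp0 : (0 : ℝ) < p := by linarith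
  have hkey : ∀ N E : ℝ, 0 < N → N ^ 4 ≤ p * E → (p : ℝ) ^ (1 + ε) * E ≤ (8 / 3) ^ k * N ^ 4 →
      (p : ℝ) ^ ε ≤ (8 / 3) ^ k := by
    intro N E hN hNE h
    have hE : 0 < p * E := lt_of_lt_of_le (pow_pos hN 4) hNE
    have h1 : (p : ℝ) ^ ε * (p * E) ≤ (8 / 3) ^ k * (p * E) := by
      calc (p : ℝ) ^ ε * (p * E) = (p : ℝ) ^ (1 + ε) * E := by
            rw [Real.rpow_add hp0, Real.rpow_one]
            ring
        _ ≤ (8 / 3) ^ k * N ^ 4 := h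
        _ ≤ _ := mul_le_mul_of_nonneg_left hNE (by positivity)
    exact le_of_mul_le_mul_right h1 hE
  constructor
  · intro hbk B hB
    rcases B.eq_empty_or_nonempty with rfl | hne
    · rw [sumAdd_empty]
      positivity
    · have hN : (0 : ℝ) < B.card := by exact_mod_cast Finset.card_pos.2 hne
      have hk := hkey _ _ hN (le_addEnergy p inferInstance B) hB
      obtain ⟨j, m, hjm, hm, hH, hcut⟩ := hP1 p hp1 k D hD hk
      subst hjm
      have h1 := hcut (B.card : ℝ) (B.addEnergy B : ℝ) (Nat.cast_nonneg _) (Nat.cast_nonneg _) hB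
      refine (hP2 p inferInstance hp2 χ hχ j m D (hD.prp hb) hm hbk hH B h1).trans ?_
      apply mul_le_mul_of_nonneg_right _ (by positivity)
      exact Real.rpow_le_rpow_of_exponent_le hp4 (neg_le_neg (min_le_left _ _))
  · intro θ hbk B h0 hB
    rcases B.eq_empty_or_nonempty with rfl | hne
    · rw [sumMul_empty]
      positivity
    · have hN : (0 : ℝ) < B.card := by exact_mod_cast Finset.card_pos.2 hne
      have hk := hkey _ _ hN (le_mulEnergy p inferInstance B) hB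
      obtain ⟨j, m, hjm, hm, hH, hcut⟩ := hP1 p hp1 k D hD hk
      subst hjm
      have h1 := hcut (B.card : ℝ) (B.mulEnergy B : ℝ) (Nat.cast_nonneg _) (Nat.cast_nonneg _) hB
      refine (hP3 p inferInstance hp3 χ hχ θ j m D (hD.prp hb) hm hbk hH B h0 h1).trans ?_
      apply mul_le_mul_of_nonneg_right _ (by positivity)
      exact Real.rpow_le_rpow_of_exponent_le hp4 (neg_le_neg (min_le_right _ _))

/-- the exponent for two large sets -/
lemma exponent (p : ℕ) (hp : 1 ≤ p) (k : ℕ) (N : ℝ)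
    (hA : (p : ℝ) ^ (83 / 200 : ℝ) ≤ (2 : ℝ) ^ k) (hN : (p : ℝ) ^ (83 / 200 : ℝ) ≤ N) :
    (p : ℝ) ^ (1 + 3 / 20000 : ℝ) ≤ (8 / 3) ^ k * N := by
  have hp0 : (0 : ℝ) < p := by exact_mod_cast hp
  have h1 : (2 : ℝ) ^ (141 / 100 : ℝ) ≤ 8 / 3 := by
    have h2 : ((2 : ℝ) ^ (141 / 100 : ℝ)) ^ 100 ≤ (8 / 3) ^ 100 := by
      rw [← Real.rpow_natCast ((2 : ℝ) ^ (141 / 100 : ℝ)), ← Real.rpow_mul (by norm_num)]
      have h3 : (141 / 100 : ℝ) * ((100 : ℕ) : ℝ) = ((141 : ℕ) : ℝ) := by norm_num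
      rw [h3, Real.rpow_natCast]
      norm_num
    exact (pow_le_pow_iff_left₀ (by positivity) (by norm_num) (by norm_num)).1 h2
  have h4 : (p : ℝ) ^ (83 / 200 * (141 / 100) : ℝ) ≤ (8 / 3) ^ k := by
    calc (p : ℝ) ^ (83 / 200 * (141 / 100) : ℝ) = ((p : ℝ) ^ (83 / 200 : ℝ)) ^ (141 / 100 : ℝ) :=
          Real.rpow_mul hp0.le _ _
      _ ≤ ((2 : ℝ) ^ k) ^ (141 / 100 : ℝ) :=
          Real.rpow_le_rpow (by positivity) hA (by norm_num)
      _ = ((2 : ℝ) ^ (141 / 100 : ℝ)) ^ k := by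
          rw [← Real.rpow_natCast, ← Real.rpow_mul (by norm_num), mul_comm,
            Real.rpow_mul (by norm_num), Real.rpow_natCast]
      _ ≤ _ := pow_le_pow_left₀ (by positivity) h1 k
  calc (p : ℝ) ^ (1 + 3 / 20000 : ℝ) =
        (p : ℝ) ^ (83 / 200 * (141 / 100) : ℝ) * (p : ℝ) ^ (83 / 200 : ℝ) := by
        rw [← Real.rpow_add hp0]
        congr 1
        norm_num
    _ ≤ _ := mul_le_mul h4 hN (by positivity) (by positivity)

theorem result (b : ℕ) (hb : 3 ≤ b) :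
    -- (1) arbitrary proper sets of digits
    (∀ ε : ℝ, 0 < ε → ∃ c δ : ℝ, 0 < c ∧ 0 < δ ∧ ∃ P : ℕ, ∀ p : ℕ, ∀ _ : Fact p.Prime, P ≤ p →
      ∀ χ : DirichletCharacter ℂ p, χ ≠ 1 → ∀ (k : ℕ) (D : ℕ → Finset ℕ),
        (∀ i < k, (D i).Nonempty ∧ (∀ d ∈ D i, d < b) ∧ ∃ d < b, d ∉ D i) →
        (p : ℝ) ^ ε ≤ ((digitSet b k D).card : ℝ) →
        (b ^ k ≤ p → ∀ B : Finset (ZMod p),
          ((p : ℝ) ^ (1 - c) ≤ ((digitSet b k D).card : ℝ) * B.card ∨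
            (p : ℝ) ^ (1 - c) * (B.addEnergy B : ℝ) ≤
              ((digitSet b k D).card : ℝ) * (B.card : ℝ) ^ 4) →
          sumAdd p χ (digitSet b k D) B ≤
            (p : ℝ) ^ (-δ) * (((digitSet b k D).card : ℝ) * B.card)) ∧
        (∀ θ : (ZMod p)ˣ, b ^ k ≤ orderOf θ → ∀ B : Finset (ZMod p), (0 : ZMod p) ∉ B →
          ((p : ℝ) ^ (1 - c) ≤ ((digitSet b k D).card : ℝ) * B.card ∨
            (p : ℝ) ^ (1 - c) * (B.mulEnergy B : ℝ) ≤
              ((digitSet b k D).card : ℝ) * (B.card : ℝ) ^ 4) →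
          sumMul p χ θ (digitSet b k D) B ≤
            (p : ℝ) ^ (-δ) * (((digitSet b k D).card : ℝ) * B.card))) ∧
    -- (2) two digits at every place
    (∀ ε : ℝ, 0 < ε → ∃ δ : ℝ, 0 < δ ∧ ∃ P : ℕ, ∀ p : ℕ, ∀ _ : Fact p.Prime, P ≤ p →
      ∀ χ : DirichletCharacter ℂ p, χ ≠ 1 → ∀ (k : ℕ) (D : ℕ → Finset ℕ),
        (∀ i < k, (D i).card = 2 ∧ (∀ d ∈ D i, d < b) ∧
          ∀ u ∈ D i, ∀ v ∈ D i, 2 * u ≠ 2 * v + b) →
        (digitSet b k D).card = 2 ^ k ∧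
        (b ^ k ≤ p → ∀ B : Finset (ZMod p),
          ((p : ℝ) ^ (1 + ε) ≤ (8 / 3) ^ k * (B.card : ℝ) ∨
            (p : ℝ) ^ (1 + ε) * (B.addEnergy B : ℝ) ≤ (8 / 3) ^ k * (B.card : ℝ) ^ 4) →
          sumAdd p χ (digitSet b k D) B ≤
            (p : ℝ) ^ (-δ) * (((digitSet b k D).card : ℝ) * B.card)) ∧
        (∀ θ : (ZMod p)ˣ, b ^ k ≤ orderOf θ → ∀ B : Finset (ZMod p), (0 : ZMod p) ∉ B →
          ((p : ℝ) ^ (1 + ε) ≤ (8 / 3) ^ k * (B.card : ℝ) ∨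
            (p : ℝ) ^ (1 + ε) * (B.mulEnergy B : ℝ) ≤ (8 / 3) ^ k * (B.card : ℝ) ^ 4) →
          sumMul p χ θ (digitSet b k D) B ≤
            (p : ℝ) ^ (-δ) * (((digitSet b k D).card : ℝ) * B.card))) ∧
    -- (3) both sets with at least `p ^ 0.415` elements
    (∃ δ : ℝ, 0 < δ ∧ ∃ P : ℕ, ∀ p : ℕ, ∀ _ : Fact p.Prime, P ≤ p →
      ∀ χ : DirichletCharacter ℂ p, χ ≠ 1 → ∀ (k : ℕ) (D : ℕ → Finset ℕ),
        (∀ i < k, (D i).card = 2 ∧ (∀ d ∈ D i, d < b) ∧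
          ∀ u ∈ D i, ∀ v ∈ D i, 2 * u ≠ 2 * v + b) →
        (p : ℝ) ^ (83 / 200 : ℝ) ≤ ((digitSet b k D).card : ℝ) →
        (b ^ k ≤ p → ∀ B : Finset (ZMod p), (p : ℝ) ^ (83 / 200 : ℝ) ≤ (B.card : ℝ) →
          sumAdd p χ (digitSet b k D) B ≤
            (p : ℝ) ^ (-δ) * (((digitSet b k D).card : ℝ) * B.card)) ∧
        (∀ θ : (ZMod p)ˣ, b ^ k ≤ orderOf θ → ∀ B : Finset (ZMod p), (0 : ZMod p) ∉ B →
          (p : ℝ) ^ (83 / 200 : ℝ) ≤ (B.card : ℝ) →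
          sumMul p χ θ (digitSet b k D) B ≤
            (p : ℝ) ^ (-δ) * (((digitSet b k D).card : ℝ) * B.card))) := by
  refine ⟨?_, ?_, ?_⟩
  · intro ε hε
    obtain ⟨c, δ, hc, hδ, P, h⟩ := part1 b (by omega) ε hε
    refine ⟨c, δ, hc, hδ, P, ?_⟩
    intro p _ hp χ hχ k D hD hA
    have hD' : Prp b k D := hD
    rw [digitSet_eq hD'] at hA ⊢
    obtain ⟨h1, h2⟩ := h p inferInstance hp χ hχ k D hD' hA
    have hX : (0 : ℝ) ≤ (p : ℝ) ^ (1 - c) := Real.rpow_nonneg (Nat.cast_nonneg _) _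
    exact ⟨fun hbk B hB => h1 hbk B (cond_of hX (Nat.cast_nonneg _) (addEnergy_le p B) hB),
      fun θ hθ B h0 hB => h2 θ hθ B h0
        (cond_of hX (Nat.cast_nonneg _) (mulEnergy_le p inferInstance B h0) hB)⟩
  · intro ε hε
    obtain ⟨δ, hδ, P, h⟩ := part2 b hb ε hε
    refine ⟨δ, hδ, P, ?_⟩
    intro p _ hp χ hχ k D hD
    have hD' : Two b k D := hD
    have hD2 := hD'.prp hb
    rw [digitSet_eq hD2]
    obtain ⟨h1, h2⟩ := h p inferInstance hp χ hχ k D hD'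
    have hX : (0 : ℝ) ≤ (p : ℝ) ^ (1 + ε) := Real.rpow_nonneg (Nat.cast_nonneg _) _
    exact ⟨hD'.card hb,
      fun hbk B hB => h1 hbk B (cond_of hX (Nat.cast_nonneg _) (addEnergy_le p B) hB),
      fun θ hθ B h0 hB => h2 θ hθ B h0
        (cond_of hX (Nat.cast_nonneg _) (mulEnergy_le p inferInstance B h0) hB)⟩
  · obtain ⟨δ, hδ, P, h⟩ := part2 b hb (3 / 20000) (by norm_num)
    refine ⟨δ, hδ, max P 1, ?_⟩
    intro p _ hp χ hχ k D hD hA
    have hD' : Two b k D := hD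
    have hD2 := hD'.prp hb
    rw [digitSet_eq hD2] at hA ⊢
    obtain ⟨h1, h2⟩ := h p inferInstance ((le_max_left _ _).trans hp) χ hχ k D hD'
    have hp1 : 1 ≤ p := (le_max_right _ _).trans hp
    have hX : (0 : ℝ) ≤ (p : ℝ) ^ (1 + 3 / 20000 : ℝ) := Real.rpow_nonneg (Nat.cast_nonneg _) _
    rw [hD'.card hb] at hA
    push_cast at hA
    exact ⟨fun hbk B hB => h1 hbk B (cond_of hX (Nat.cast_nonneg _) (addEnergy_le p B)
        (Or.inl (exponent p hp1 k _ hA hB))),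
      fun θ hθ B h0 hB => h2 θ hθ B h0
        (cond_of hX (Nat.cast_nonneg _) (mulEnergy_le p inferInstance B h0)
          (Or.inl (exponent p hp1 k _ hA hB)))⟩

end Pool.Agent.Results.MP_f6e9a2_nt.RestrictedDigitsAnySet
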